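import Mathlib
import Pool.Agent.Y345.LD.Std

/-!
# Local realizers of Boolean lattices

A local realizer of the Boolean lattice of rank four of frequency three, and local realizers of
products.
-/

set_option autoImplicit false

namespace Pool.Agent.R126.BoolLD

open Pool.Agent.Results.MP_33e188_co.MaxLocalDimension Pool.Agent.Y345.LD

/-! ### rank four -/

/-- the code of a subset of `{0, 1, 2, 3}` -/
def code (s : Finset (Fin 4)) : ℕ :=
  (if 0 ∈ s then 1 else 0) + (if 1 ∈ s then 2 else 0) + (if 2 ∈ s then 4 else 0) +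
    (if 3 ∈ s then 8 else 0)

/-- the four partial linear extensions, as lists of codes in increasing order -/
def ples : Fin 4 → List ℕ
  | 0 => [0, 4, 5, 2, 6, 7, 8, 10, 14, 9, 11, 13, 15]
  | 1 => [0, 2, 1, 3, 8, 9, 11, 4, 5, 7, 12, 13, 15]
  | 2 => [0, 8, 12, 1, 9, 13, 2, 3, 10, 11, 6, 14, 7, 15]
  | 3 => [10, 4, 6, 12, 14, 1, 5, 3]

/-- position of `s` in the `i`-th list, counted from one; zero if `s` does not occur -/
def pos (i : Fin 4) (s : Finset (Fin 4)) : ℕ :=
  if code s ∈ ples i then (ples i).idxOf (code s) + 1 else 0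

theorem pos_inj : ∀ (i : Fin 4) (s t : Finset (Fin 4)), pos i s ≠ 0 → pos i s = pos i t → s = t := by
  decide +kernel

theorem pos_lt : ∀ (i : Fin 4) (s t : Finset (Fin 4)), s ⊆ t → s ≠ t → pos i s ≠ 0 → pos i t ≠ 0 →
    pos i s < pos i t := by
  decide +kernel

theorem pos_cover : ∀ (s t : Finset (Fin 4)), ¬ t ⊆ s → ∃ i : Fin 4, pos i s ≠ 0 ∧ pos i t ≠ 0 ∧
    pos i s < pos i t := by
  decide +kernel

theorem pos_card : ∀ (s : Finset (Fin 4)), (Finset.univ.filter fun i : Fin 4 => pos i s ≠ 0).card ≤ 3 := by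
  decide +kernel

/-- the partial linear extension with given positions -/
def plePos (i : Fin 4) : PartialLinearExtension (Finset (Fin 4)) where
  carrier := {s | pos i s ≠ 0}
  lt s t := pos i s ≠ 0 ∧ pos i t ≠ 0 ∧ pos i s < pos i t
  mem_of_lt _ _ h := ⟨h.1, h.2.1⟩
  irrefl _ h := lt_irrefl _ h.2.2
  trans _ _ _ h h' := ⟨h.1, h'.2.1, h.2.2.trans h'.2.2⟩
  total s hs t ht hne := by
    rcases lt_trichotomy (pos i s) (pos i t) with h | h | h
    · exact Or.inl ⟨hs, ht, h⟩
    · exact absurd (pos_inj i s t hs h) hne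
    · exact Or.inr ⟨ht, hs, h⟩
  lt_of_lt s hs t ht h := ⟨hs, ht, pos_lt i s t h.1 (fun e => h.2 e.ge) hs ht⟩

theorem loc_four : Loc (Finset (Fin 4)) 3 := by
  refine ⟨4, plePos, ⟨?_, ?_⟩, ?_⟩
  · intro x y hxy
    exact pos_cover x y hxy.2
  · intro x y hxy _
    exact pos_cover y x hxy
  · intro x
    have h := pos_card x
    change Nat.card {i : Fin 4 // pos i x ≠ 0} ≤ 3
    rw [Nat.card_eq_fintype_card, Fintype.card_subtype]
    exact h

/-! ### products -/

section prod

variable {P Q : Type*} [PartialOrder P] [PartialOrder Q]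

/-- a (strict) linear extension of a partial order -/
theorem exists_lin (P : Type*) [PartialOrder P] : ∃ r : P → P → Prop, (∀ x, ¬ r x x) ∧
    (∀ x y z, r x y → r y z → r x z) ∧ (∀ x y, x ≠ y → r x y ∨ r y x) ∧
    ∀ x y, x < y → r x y := by
  obtain ⟨s, hs, hrs⟩ := extend_partialOrder ((· ≤ ·) : P → P → Prop)
  refine ⟨fun x y => s x y ∧ x ≠ y, fun x h => h.2 rfl, ?_, ?_, ?_⟩
  · rintro x y z ⟨h1, h1'⟩ ⟨h2, h2'⟩
    refine ⟨hs.trans _ _ _ h1 h2, ?_⟩
    rintro rfl
    exact h1' (hs.antisymm _ _ h1 h2)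
  · intro x y hxy
    rcases hs.total x y with h | h
    · exact Or.inl ⟨h, hxy⟩
    · exact Or.inr ⟨h, hxy.symm⟩
  · intro x y hxy
    exact ⟨hrs x y hxy.le, hxy.ne⟩

/-- the lexicographic partial linear extension of a product, first coordinate first -/
def lexL (L : PartialLinearExtension P) (r : Q → Q → Prop) (h1 : ∀ x, ¬ r x x)
    (h2 : ∀ x y z, r x y → r y z → r x z) (h3 : ∀ x y, x ≠ y → r x y ∨ r y x)
    (h4 : ∀ x y, x < y → r x y) : PartialLinearExtension (P × Q) where
  carrier := {x | x.1 ∈ L.carrier}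
  lt x y := L.lt x.1 y.1 ∨ (x.1 = y.1 ∧ x.1 ∈ L.carrier ∧ r x.2 y.2)
  mem_of_lt x y h := by
    rcases h with h | ⟨h, h', -⟩
    · exact L.mem_of_lt _ _ h
    · refine ⟨h', ?_⟩
      change y.1 ∈ L.carrier
      rw [← h]
      exact h'
  irrefl x h := by
    rcases h with h | ⟨-, -, h⟩
    · exact L.irrefl _ h
    · exact h1 _ h
  trans x y z h h' := by
    rcases h with h | ⟨e, m, h⟩ <;> rcases h' with h' | ⟨e', m', h'⟩
    · exact Or.inl (L.trans _ _ _ h h')
    · exact Or.inl (by rw [← e']; exact h)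
    · exact Or.inl (by rw [e]; exact h')
    · exact Or.inr ⟨e.trans e', m, h2 _ _ _ h h'⟩
  total x hx y hy hne := by
    by_cases e : x.1 = y.1
    · have hne2 : x.2 ≠ y.2 := fun e2 => hne (Prod.ext e e2)
      rcases h3 _ _ hne2 with h | h
      · exact Or.inl (Or.inr ⟨e, hx, h⟩)
      · exact Or.inr (Or.inr ⟨e.symm, hy, h⟩)
    · rcases L.total _ hx _ hy e with h | h
      · exact Or.inl (Or.inl h)
      · exact Or.inr (Or.inl h)
  lt_of_lt x hx y hy h := by
    by_cases e : x.1 = y.1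
    · right
      refine ⟨e, hx, h4 _ _ (lt_of_le_of_ne h.le.2 fun e2 => h.ne (Prod.ext e e2))⟩
    · left
      exact L.lt_of_lt _ hx _ hy (lt_of_le_of_ne h.le.1 e)

theorem loc_prod {s t : ℕ} (hP : Loc P s) (hQ : Loc Q t) : Loc (P × Q) (s + t) := by
  obtain ⟨m, L, hL, hc⟩ := hP
  obtain ⟨n, M, hM, hd⟩ := hQ
  obtain ⟨r, r1, r2, r3, r4⟩ := exists_lin Q
  obtain ⟨q, q1, q2, q3, q4⟩ := exists_lin P
  let swapO : P × Q ↪o Q × P :=
    { toFun := Prod.swap
      inj' := Prod.swap_injective
      map_rel_iff' := by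
        intro a b
        exact Prod.swap_le_swap }
  let F : Fin m ⊕ Fin n → PartialLinearExtension (P × Q) := fun i =>
    match i with
    | Sum.inl i => lexL (L i) r r1 r2 r3 r4
    | Sum.inr i => comap swapO (lexL (M i) q q1 q2 q3 q4)
  -- for incomparable or increasing pairs
  have key : ∀ x y : P × Q, ¬ y ≤ x → ∃ i, (F i).lt x y := by
    intro x y hyx
    have h : ¬ y.1 ≤ x.1 ∨ ¬ y.2 ≤ x.2 := by
      by_contra hcon
      push Not at hcon
      exact hyx hcon
    rcases h with h | h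
    · by_cases h' : x.1 ≤ y.1
      · obtain ⟨i, hi⟩ := hL.1 x.1 y.1 (lt_of_le_not_ge h' h)
        exact ⟨Sum.inl i, Or.inl hi⟩
      · obtain ⟨i, hi⟩ := hL.2 y.1 x.1 h h'
        exact ⟨Sum.inl i, Or.inl hi⟩
    · by_cases h' : x.2 ≤ y.2
      · obtain ⟨i, hi⟩ := hM.1 x.2 y.2 (lt_of_le_not_ge h' h)
        exact ⟨Sum.inr i, Or.inl hi⟩
      · obtain ⟨i, hi⟩ := hM.2 y.2 x.2 h h'
        exact ⟨Sum.inr i, Or.inl hi⟩
  let e : Fin (m + n) ≃ Fin m ⊕ Fin n := finSumFinEquiv.symm
  refine ⟨m + n, fun i => F (e i), ⟨?_, ?_⟩, ?_⟩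
  · intro x y hxy
    obtain ⟨i, hi⟩ := key x y (not_le_of_gt hxy)
    exact ⟨e.symm i, by simpa using hi⟩
  · intro x y hxy _
    obtain ⟨i, hi⟩ := key y x hxy
    exact ⟨e.symm i, by simpa using hi⟩
  · intro x
    have e1 : Nat.card {i : Fin (m + n) // x ∈ (F (e i)).carrier} =
        Nat.card {i : Fin m ⊕ Fin n // x ∈ (F i).carrier} :=
      Nat.card_congr (e.subtypeEquiv (fun i => Iff.rfl))
    have e2 : Nat.card {i : Fin m ⊕ Fin n // x ∈ (F i).carrier} =
        Nat.card ({i : Fin m // x.1 ∈ (L i).carrier} ⊕ {i : Fin n // x.2 ∈ (M i).carrier}) := by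
      refine Nat.card_congr ((Equiv.subtypeSum (p := fun i => x ∈ (F i).carrier)).trans ?_)
      exact Equiv.sumCongr (Equiv.subtypeEquivRight fun i => Iff.rfl)
        (Equiv.subtypeEquivRight fun i => Iff.rfl)
    rw [e1, e2, Nat.card_sum]
    exact Nat.add_le_add (hc x.1) (hd x.2)

end prod

theorem loc_mono {P : Type*} [PartialOrder P] {s t : ℕ} (h : Loc P s) (hst : s ≤ t) : Loc P t := by
  obtain ⟨n, L, hL, hc⟩ := h
  exact ⟨n, L, hL, fun x => (hc x).trans hst⟩

/-! ### Boolean lattices -/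

/-- the Boolean lattice of rank `m + n` as a product -/
def splitO (m n : ℕ) : Finset (Fin (m + n)) ↪o Finset (Fin m) × Finset (Fin n) where
  toFun s := (Finset.univ.filter fun i => Fin.castAdd n i ∈ s,
    Finset.univ.filter fun i => Fin.natAdd m i ∈ s)
  inj' := by
    intro s t h
    rw [Prod.mk.injEq] at h
    ext i
    refine Fin.addCases (fun i => ?_) (fun i => ?_) i
    · have := Finset.ext_iff.1 h.1 i
      simpa using this
    · have := Finset.ext_iff.1 h.2 i
      simpa using this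
  map_rel_iff' := by
    intro s t
    constructor
    · rintro ⟨h1, h2⟩ i
      refine Fin.addCases (fun i hi => ?_) (fun i hi => ?_) i
      · have := h1 (Finset.mem_filter.2 ⟨Finset.mem_univ i, hi⟩)
        exact (Finset.mem_filter.1 this).2
      · have := h2 (Finset.mem_filter.2 ⟨Finset.mem_univ i, hi⟩)
        exact (Finset.mem_filter.1 this).2
    · intro h
      refine ⟨fun i hi => ?_, fun i hi => ?_⟩
      · exact Finset.mem_filter.2 ⟨Finset.mem_univ i, h (Finset.mem_filter.1 hi).2⟩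
      · exact Finset.mem_filter.2 ⟨Finset.mem_univ i, h (Finset.mem_filter.1 hi).2⟩

theorem loc_add {m n s t : ℕ} (h : Loc (Finset (Fin m)) s) (h' : Loc (Finset (Fin n)) t) :
    Loc (Finset (Fin (m + n))) (s + t) :=
  Loc.of_embedding (splitO m n) (loc_prod h h')

theorem loc_zero : Loc (Finset (Fin 0)) 0 := by
  refine ⟨0, fun i => i.elim0, ⟨?_, ?_⟩, ?_⟩
  · intro x y hxy
    exact absurd (Subsingleton.elim x y) hxy.ne
  · intro x y hxy _
    exact absurd (Subsingleton.elim x y).le hxy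
  · intro x
    simp

theorem loc_one : Loc (Finset (Fin 1)) 1 := by
  obtain ⟨r, r1, r2, r3, r4⟩ := exists_lin (Finset (Fin 1))
  refine ⟨1, fun _ => ⟨Set.univ, r, fun _ _ _ => ⟨trivial, trivial⟩, r1, r2,
    fun x _ y _ h => r3 x y h, fun x _ y _ h => r4 x y h⟩, ⟨?_, ?_⟩, ?_⟩
  · intro x y hxy
    exact ⟨0, r4 x y hxy⟩
  · intro x y hxy hyx
    exfalso
    have : ∀ x y : Finset (Fin 1), x ≤ y ∨ y ≤ x := by decide
    rcases this x y with h | h
    · exact hxy h
    · exact hyx h
  · intro x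
    simp

theorem loc_self (n : ℕ) : Loc (Finset (Fin n)) n := by
  induction n with
  | zero => exact loc_zero
  | succ n ih => exact loc_add ih loc_one

theorem loc_bool (n : ℕ) : Loc (Finset (Fin n)) (n - n / 4) := by
  induction n using Nat.strong_induction_on with
  | _ n ih =>
    rcases Nat.lt_or_ge n 4 with h | h
    · have : n / 4 = 0 := Nat.div_eq_of_lt h
      rw [this]
      exact loc_self n
    · obtain ⟨k, rfl⟩ := Nat.exists_eq_add_of_le' h
      have h1 := ih k (by omega)
      have h2 := loc_add h1 loc_four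
      have e : k - k / 4 + 3 = k + 4 - (k + 4) / 4 := by omega
      rw [← e]
      exact h2

/-! ### lower bounds -/

/-- the standard example in a Boolean lattice -/
def stdO (n : ℕ) (hn : 3 ≤ n) : Std n ↪o Finset (Fin n) := by
  classical
  refine OrderEmbedding.ofMapLEIff (fun x : Std n => if x.1 = false then {x.2} else {x.2}ᶜ) ?_
  intro x y
  rw [Std.le_iff]
  obtain ⟨a, i⟩ : Bool × Fin n := x
  obtain ⟨b, j⟩ : Bool × Fin n := y
  change (if a = false then ({i} : Finset (Fin n)) else {i}ᶜ) ≤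
    (if b = false then {j} else {j}ᶜ) ↔
    ((a, i) : Bool × Fin n) = (b, j) ∨ (a = false ∧ b = true ∧ i ≠ j)
  have hex : ∀ i j : Fin n, ∃ k : Fin n, k ≠ i ∧ k ≠ j := by
    intro i j
    by_contra hcon
    push Not at hcon
    have h1 : (Finset.univ : Finset (Fin n)) ⊆ {i, j} := by
      intro k _
      by_cases hk : k = i
      · simp [hk]
      · simp [hcon k hk]
    have h2 := Finset.card_le_card h1
    have h3 : ({i, j} : Finset (Fin n)).card ≤ 2 := Finset.card_le_two
    rw [Finset.card_univ, Fintype.card_fin] at h2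
    omega
  cases a <;> cases b
  · simp only [if_true, Finset.le_eq_subset, Finset.singleton_subset_singleton]
    constructor
    · rintro rfl; exact Or.inl rfl
    · rintro (h | h)
      · exact congrArg Prod.snd h
      · exact absurd h.2.1 (by simp)
  · simp only [if_true, Finset.le_eq_subset, Finset.singleton_subset_iff, Finset.mem_compl,
      Finset.mem_singleton, Bool.true_eq_false, if_false]
    constructor
    · intro h; exact Or.inr ⟨trivial, trivial, h⟩
    · rintro (h | h)
      · exact absurd (congrArg Prod.fst h) (by simp)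
      · exact h.2.2
  · simp only [if_true, Finset.le_eq_subset, Bool.true_eq_false, if_false]
    constructor
    · intro h
      exfalso
      obtain ⟨k, hk1, hk2⟩ := hex i j
      have h1 : k ∈ ({i} : Finset (Fin n))ᶜ := by simp [hk1]
      have h2 := h h1
      simp only [Finset.mem_singleton] at h2
      exact hk2 h2
    · rintro (h | h)
      · exact absurd (congrArg Prod.fst h) (by simp)
      · exact absurd h.1 (by simp)
  · simp only [Bool.true_eq_false, if_false, Finset.le_eq_subset,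
      Finset.compl_subset_compl, Finset.singleton_subset_singleton]
    constructor
    · rintro rfl; exact Or.inl rfl
    · rintro (h | h)
      · exact (congrArg Prod.snd h).symm
      · exact absurd h.1 (by simp)

theorem loc_ge_three {n t : ℕ} (hn : 3 ≤ n) (h : Loc (Finset (Fin n)) t) : 3 ≤ t := by
  by_contra hcon
  have h2 : Loc (Finset (Fin n)) 2 := loc_mono h (by omega)
  have h3 := Rz.of_embedding (stdO n hn) (rz_two h2)
  have h4 := Std.not_rz h3
  omega

theorem loc_ge_two {t : ℕ} (h : Loc (Finset (Fin 2)) t) : 2 ≤ t :=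
  loc_two (x := ({0} : Finset (Fin 2))) (y := {1}) (by decide) (by decide) h

theorem loc_ge_one {t : ℕ} (h : Loc (Finset (Fin 1)) t) : 1 ≤ t := by
  obtain ⟨n, L, hL, hc⟩ := h
  obtain ⟨i, hi⟩ := hL.1 (∅ : Finset (Fin 1)) {0} (by decide)
  have h1 := hc ∅
  have h2 : 0 < Nat.card {i : Fin n // (∅ : Finset (Fin 1)) ∈ (L i).carrier} := by
    have : Nonempty {i : Fin n // (∅ : Finset (Fin 1)) ∈ (L i).carrier} :=
      ⟨⟨i, ((L i).mem_of_lt _ _ hi).1⟩⟩
    exact Nat.card_pos
  omega

end Pool.Agent.R126.BoolLD
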