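import Pool.Agent.R179.Fac.Stmts

/-!
# FAC-A: irredundant representation by facets (for `MP_688354_co`)
-/

open Set Filter Topology

namespace Pool.Agent.R126.Fac

open Pool.Agent.R179.Fac

/-- A small step from a point in a direction that is harmless for the active inequalities. -/
theorem small_step {d n : ℕ} (u : Fin n → E d) (h : Fin n → ℝ) (x w : E d)
    (H : ∀ i, inner ℝ (u i) x < h i ∨ (inner ℝ (u i) x ≤ h i ∧ inner ℝ (u i) w ≤ 0)) :
    ∃ ε : ℝ, 0 < ε ∧ x + ε • w ∈ HPoly u h := by
  have h1 : ∀ i, ∀ᶠ ε in 𝓝[>] (0 : ℝ), inner ℝ (u i) (x + ε • w) ≤ h i := by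
    intro i
    rcases H i with h1 | ⟨h1, h2⟩
    · have hc : Continuous fun ε : ℝ => inner ℝ (u i) (x + ε • w) := by fun_prop
      have h0 : ∀ᶠ ε in 𝓝 (0 : ℝ), inner ℝ (u i) (x + ε • w) < h i := by
        apply (hc.tendsto 0).eventually_lt_const
        simpa using h1
      exact (h0.filter_mono nhdsWithin_le_nhds).mono fun _ h => h.le
    · filter_upwards [self_mem_nhdsWithin] with ε hε
      rw [inner_add_right, inner_smul_right]
      have h3 : ε * inner ℝ (u i) w ≤ 0 := mul_nonpos_of_nonneg_of_nonpos (mem_Ioi.1 hε).le h2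
      linarith
  have h2 := (Filter.eventually_all.2 h1).and self_mem_nhdsWithin
  obtain ⟨ε, h3, h4⟩ := h2.exists
  exact ⟨ε, h4, h3⟩

theorem finrank_perp {d : ℕ} {v : E d} (hv : v ≠ 0) :
    Module.finrank ℝ (Submodule.span ℝ {v})ᗮ + 1 = d := by
  have h1 := Submodule.finrank_add_finrank_orthogonal (K := Submodule.span ℝ {v})
  rw [finrank_span_singleton hv, finrank_euclideanSpace_fin] at h1
  omega

theorem vectorSpan_le_perp {d : ℕ} {F : Set (E d)} {v : E d} {t : ℝ}
    (h : ∀ x ∈ F, inner ℝ v x = t) : vectorSpan ℝ F ≤ (Submodule.span ℝ {v})ᗮ := by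
  rw [vectorSpan_def, Submodule.span_le]
  rintro _ ⟨x, hx, y, hy, rfl⟩
  simp only [vsub_eq_sub, SetLike.mem_coe]
  rw [Submodule.mem_orthogonal_singleton_iff_inner_right, inner_sub_right, h x hx, h y hy,
    sub_self]

/-- A point where only the inequality `i` is active makes the `i`-th face a facet. -/
theorem isFacet_face {d n : ℕ} {u : Fin n → E d} {h : Fin n → ℝ} {i : Fin n} (hu : u i ≠ 0)
    {z : E d} (hz : inner ℝ (u i) z = h i) (hz' : ∀ j, j ≠ i → inner ℝ (u j) z < h j) :
    IsFacet (HPoly u h) (face u h i) := by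
  have hzP : z ∈ HPoly u h := by
    intro j
    by_cases hj : j = i
    · rw [hj, hz]
    · exact (hz' j hj).le
  have hzF : z ∈ face u h i := ⟨hzP, hz⟩
  refine ⟨u i, h i, hu, fun x hx => hx i, rfl, ⟨z, hzF⟩, ?_⟩
  have key : vectorSpan ℝ (face u h i) = (Submodule.span ℝ {u i})ᗮ := by
    refine le_antisymm (vectorSpan_le_perp fun x hx => hx.2) ?_
    intro w hw
    rw [Submodule.mem_orthogonal_singleton_iff_inner_right] at hw
    obtain ⟨ε, hε, hεP⟩ := small_step u h z w (by
      intro j
      by_cases hj : j = i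
      · right
        rw [hj, hz, hw]
        exact ⟨le_refl _, le_refl _⟩
      · exact Or.inl (hz' j hj))
    have hεF : z + ε • w ∈ face u h i := by
      refine ⟨hεP, ?_⟩
      rw [inner_add_right, inner_smul_right, hw, mul_zero, add_zero, hz]
    have h1 : ε • w ∈ vectorSpan ℝ (face u h i) := by
      have := vsub_mem_vectorSpan ℝ hεF hzF
      simpa using this
    have h2 := Submodule.smul_mem _ ε⁻¹ h1
    rwa [smul_smul, inv_mul_cancel₀ hε.ne', one_smul] at h2
  rw [key]
  exact finrank_perp hu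

theorem exists_strict {d n : ℕ} {u : Fin n → E d} {h : Fin n → ℝ} {F : Set (E d)}
    (hF : Convex ℝ F) (hne : F.Nonempty) (hP : F ⊆ HPoly u h)
    (H : ∀ i, ∃ x ∈ F, inner ℝ (u i) x < h i) : ∃ z ∈ F, ∀ i, inner ℝ (u i) z < h i := by
  classical
  have key : ∀ s : Finset (Fin n), ∃ z ∈ F, ∀ i ∈ s, inner ℝ (u i) z < h i := by
    intro s
    induction s using Finset.induction_on with
    | empty =>
      obtain ⟨z, hz⟩ := hne
      exact ⟨z, hz, fun i hi => absurd hi (Finset.notMem_empty i)⟩
    | insert i s his ih =>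
      obtain ⟨z, hz, hzs⟩ := ih
      obtain ⟨x, hx, hxi⟩ := H i
      refine ⟨(1 / 2 : ℝ) • z + (1 / 2 : ℝ) • x, hF hz hx (by norm_num) (by norm_num)
        (by norm_num), fun j hj => ?_⟩
      rw [inner_add_right, inner_smul_right, inner_smul_right]
      rcases Finset.mem_insert.1 hj with rfl | hj
      · have := hP hz j
        linarith
      · have := hzs j hj
        have := hP hx j
        linarith
  obtain ⟨z, hz, hzs⟩ := key Finset.univ
  exact ⟨z, hz, fun i => hzs i (Finset.mem_univ i)⟩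

theorem convex_hpoly {d n : ℕ} (u : Fin n → E d) (h : Fin n → ℝ) : Convex ℝ (HPoly u h) := by
  intro x hx y hy a b ha hb hab i
  rw [inner_add_right, inner_smul_right, inner_smul_right]
  have h1 := mul_le_mul_of_nonneg_left (hx i) ha
  have h2 := mul_le_mul_of_nonneg_left (hy i) hb
  have h3 : a * h i + b * h i = h i := by rw [← add_mul, hab, one_mul]
  linarith

/-- Every facet is one of the faces given by the inequalities. -/
theorem facet_eq_face {d n : ℕ} {u : Fin n → E d} {h : Fin n → ℝ}
    (hx0 : ∃ x, ∀ i, inner ℝ (u i) x < h i) {F : Set (E d)} (hF : IsFacet (HPoly u h) F) :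
    ∃ i, u i ≠ 0 ∧ F = face u h i := by
  obtain ⟨x0, hx0⟩ := hx0
  obtain ⟨v, t, hv, hvt, hFe, hne, hdim⟩ := hF
  have hconv : Convex ℝ F := by
    rw [hFe]
    intro x hx y hy a b ha hb hab
    refine ⟨convex_hpoly u h hx.1 hy.1 ha hb hab, ?_⟩
    rw [inner_add_right, inner_smul_right, inner_smul_right, hx.2, hy.2, ← add_mul, hab, one_mul]
  have hsub : F ⊆ HPoly u h := by rw [hFe]; exact fun x hx => hx.1
  have hval : ∀ x ∈ F, inner ℝ v x = t := by rw [hFe]; exact fun x hx => hx.2
  -- no point of `F` is strict for all inequalities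
  have hns : ¬ ∃ z ∈ F, ∀ i, inner ℝ (u i) z < h i := by
    rintro ⟨z, hz, hzs⟩
    obtain ⟨ε, hε, hεP⟩ := small_step u h z v (fun i => Or.inl (hzs i))
    have h1 := hvt _ hεP
    rw [inner_add_right, inner_smul_right, hval z hz] at h1
    have h2 : 0 < ε * inner ℝ v v := mul_pos hε (real_inner_self_pos.2 hv)
    linarith
  obtain ⟨i, hi⟩ : ∃ i, ∀ x ∈ F, inner ℝ (u i) x = h i := by
    by_contra hcon
    push Not at hcon
    refine hns (exists_strict hconv hne hsub fun i => ?_)
    obtain ⟨x, hx, hxi⟩ := hcon i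
    exact ⟨x, hx, lt_of_le_of_ne (hsub hx i) hxi⟩
  have hui : u i ≠ 0 := by
    intro h0
    obtain ⟨x, hx⟩ := hne
    have h1 := hi x hx
    have h2 := hx0 i
    rw [h0, inner_zero_left] at h1 h2
    linarith
  refine ⟨i, hui, ?_⟩
  have e1 : vectorSpan ℝ F = (Submodule.span ℝ {v})ᗮ :=
    Submodule.eq_of_le_of_finrank_eq (vectorSpan_le_perp hval) (by
      have := finrank_perp hv; omega)
  have e2 : vectorSpan ℝ F = (Submodule.span ℝ {u i})ᗮ :=
    Submodule.eq_of_le_of_finrank_eq (vectorSpan_le_perp hi) (by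
      have := finrank_perp hui; omega)
  apply Set.Subset.antisymm
  · intro x hx
    exact ⟨hsub hx, hi x hx⟩
  · intro x hx
    obtain ⟨x1, hx1⟩ := hne
    have h1 : x - x1 ∈ (Submodule.span ℝ {u i})ᗮ := by
      rw [Submodule.mem_orthogonal_singleton_iff_inner_right, inner_sub_right, hx.2, hi x1 hx1,
        sub_self]
    rw [← e2, e1, Submodule.mem_orthogonal_singleton_iff_inner_right, inner_sub_right,
      hval x1 hx1] at h1
    rw [hFe]
    exact ⟨hx.1, by linarith⟩

theorem a2_ok : St_A2 := by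
  intro d n u h hx0
  have hsub : {F | IsFacet (HPoly u h) F} ⊆ Set.range (face u h) := by
    intro F hF
    obtain ⟨i, -, hi⟩ := facet_eq_face hx0 hF
    exact ⟨i, hi.symm⟩
  refine ⟨(Set.finite_range _).subset hsub, ?_⟩
  unfold numFacets
  refine (Set.ncard_le_ncard hsub (Set.finite_range _)).trans ?_
  rw [← Set.image_univ]
  refine (Set.ncard_image_le Set.finite_univ).trans ?_
  rw [Set.ncard_univ, Nat.card_eq_fintype_card, Fintype.card_fin]

theorem a1_ok : St_A1 := by
  classical
  intro d P hP hint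
  obtain ⟨-, hex⟩ := hP
  have hmin : ∀ m, m < Nat.find hex → ¬ ∃ (u : Fin m → E d) (h : Fin m → ℝ), P = HPoly u h :=
    fun m hm => Nat.find_min hex hm
  obtain ⟨u, h, hPe⟩ := Nat.find_spec hex
  generalize Nat.find hex = n at hmin u h hPe
  obtain ⟨x0, hx0⟩ := hint
  have hx0P : x0 ∈ HPoly u h := hPe ▸ interior_subset hx0
  -- for every `i` a point violating only `i`
  have hviol : ∀ i, ∃ y, h i < inner ℝ (u i) y ∧ ∀ j, j ≠ i → inner ℝ (u j) y ≤ h j := by
    intro i
    by_contra hcon
    push Not at hcon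
    cases n with
    | zero => exact i.elim0
    | succ m =>
      refine hmin m (Nat.lt_succ_self m) ⟨fun k => u (i.succAbove k), fun k => h (i.succAbove k), ?_⟩
      rw [hPe]
      ext x
      constructor
      · intro hx k
        exact hx _
      · intro hx j
        have hall : ∀ j, j ≠ i → inner ℝ (u j) x ≤ h j := by
          intro j hj
          obtain ⟨k, rfl⟩ := Fin.exists_succAbove_eq hj
          exact hx k
        by_cases hj : j = i
        · subst hj
          by_contra hlt
          obtain ⟨l, hl, hl'⟩ := hcon x (not_le.1 hlt)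
          exact absurd (hall l hl) (not_le.2 hl')
        · exact hall j hj
  have hu : ∀ i, u i ≠ 0 := by
    intro i h0
    obtain ⟨y, hy, -⟩ := hviol i
    have h1 := hx0P i
    rw [h0, inner_zero_left] at hy h1
    linarith
  have hx0s : ∀ i, inner ℝ (u i) x0 < h i := by
    intro i
    have hc : Continuous fun ε : ℝ => x0 + ε • u i := by fun_prop
    have h1 : ∀ᶠ ε in 𝓝 (0 : ℝ), x0 + ε • u i ∈ interior P := by
      apply (hc.tendsto 0).eventually_mem
      apply isOpen_interior.mem_nhds
      simpa using hx0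
    obtain ⟨ε, hε, hε'⟩ := ((h1.filter_mono (nhdsWithin_le_nhds (s := Ioi 0))).and
      self_mem_nhdsWithin).exists
    have h2 : x0 + ε • u i ∈ HPoly u h := hPe ▸ interior_subset hε
    have h3 := h2 i
    rw [inner_add_right, inner_smul_right] at h3
    have h4 : 0 < ε * inner ℝ (u i) (u i) := mul_pos hε' (real_inner_self_pos.2 (hu i))
    linarith
  -- points on the segment from `y` to `x0`
  have hseg : ∀ i, ∃ y, h i < inner ℝ (u i) y ∧ ∀ j, j ≠ i → inner ℝ (u j) y < h j := by
    intro i
    obtain ⟨y, hy, hy'⟩ := hviol i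
    have hA : 0 < inner ℝ (u i) y - h i := by linarith
    have hB : 0 < inner ℝ (u i) y - inner ℝ (u i) x0 := by linarith [hx0s i]
    set s : ℝ := (inner ℝ (u i) y - h i) / (inner ℝ (u i) y - inner ℝ (u i) x0) / 2 with hs
    have hs0 : 0 < s := by positivity
    have hs1 : s ≤ 1 := by
      rw [hs, div_div, div_le_one (by positivity)]
      linarith [hx0s i]
    have hsB : s * (inner ℝ (u i) y - inner ℝ (u i) x0) = (inner ℝ (u i) y - h i) / 2 := by
      rw [hs]; field_simp
    refine ⟨(1 - s) • y + s • x0, ?_, fun j hj => ?_⟩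
    · rw [inner_add_right, inner_smul_right, inner_smul_right]
      linarith
    · rw [inner_add_right, inner_smul_right, inner_smul_right]
      have h1 := mul_le_mul_of_nonneg_left (hy' j hj) (sub_nonneg.2 hs1)
      have h2 := mul_lt_mul_of_pos_left (hx0s j) hs0
      linarith
  have hpt : ∀ i, ∃ z, inner ℝ (u i) z = h i ∧ ∀ j, j ≠ i → inner ℝ (u j) z < h j := by
    intro i
    obtain ⟨y, hy, hy'⟩ := hseg i
    have hA : 0 < inner ℝ (u i) y - h i := by linarith
    have hB : 0 < inner ℝ (u i) y - inner ℝ (u i) x0 := by linarith [hx0s i]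
    set s : ℝ := (inner ℝ (u i) y - h i) / (inner ℝ (u i) y - inner ℝ (u i) x0) with hs
    have hs0 : 0 < s := by positivity
    have hs1 : s ≤ 1 := by
      rw [hs, div_le_one (by positivity)]
      linarith [hx0s i]
    have hsB : s * (inner ℝ (u i) y - inner ℝ (u i) x0) = (inner ℝ (u i) y - h i) := by
      rw [hs]; field_simp
    refine ⟨(1 - s) • y + s • x0, ?_, fun j hj => ?_⟩
    · rw [inner_add_right, inner_smul_right, inner_smul_right]
      linarith
    · rw [inner_add_right, inner_smul_right, inner_smul_right]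
      have h1 := mul_le_mul_of_nonneg_left (hy' j hj).le (sub_nonneg.2 hs1)
      have h2 := mul_lt_mul_of_pos_left (hx0s j) hs0
      linarith
  refine ⟨n, u, h, hPe, ⟨hu, hseg⟩, ⟨x0, hx0s⟩, ?_, ?_⟩
  · intro i j hij
    by_contra hne
    obtain ⟨z, hz, hz'⟩ := hpt i
    have h1 : z ∈ face u h i := by
      refine ⟨fun k => ?_, hz⟩
      by_cases hk : k = i
      · rw [hk, hz]
      · exact (hz' k hk).le
    rw [hij] at h1
    exact absurd h1.2 (ne_of_lt (hz' j (Ne.symm hne)))
  · rw [hPe]
    apply Set.Subset.antisymm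
    · intro F hF
      obtain ⟨i, -, hi⟩ := facet_eq_face ⟨x0, hx0s⟩ hF
      exact ⟨i, hi.symm⟩
    · rintro _ ⟨i, rfl⟩
      obtain ⟨z, hz, hz'⟩ := hpt i
      exact isFacet_face (hu i) hz hz'

end Pool.Agent.R126.Fac
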