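import Pool.Agent.R126.FacA

/-!
# FAC-E1: truncating the exposed points of a symmetric polytope (for `MP_688354_co`)
-/

open Set Filter Topology

namespace Pool.Agent.R126.Fac

open Pool.Agent.R179.Fac

theorem isClosed_hpoly {d n : ℕ} (u : Fin n → E d) (h : Fin n → ℝ) : IsClosed (HPoly u h) := by
  have : HPoly u h = ⋂ i, {x | inner ℝ (u i) x ≤ h i} := by
    ext x; simp [HPoly]
  rw [this]
  exact isClosed_iInter fun i => isClosed_le (by fun_prop) continuous_const

theorem facet_subset_frontier {d n : ℕ} {u : Fin n → E d} {h : Fin n → ℝ} {F : Set (E d)}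
    (hF : IsFacet (HPoly u h) F) : F ⊆ frontier (HPoly u h) := by
  obtain ⟨v, t, hv, hvt, hFe, hne, hdim⟩ := hF
  intro x hx
  rw [hFe] at hx
  refine ⟨subset_closure hx.1, fun hint => ?_⟩
  have hc : Continuous fun ε : ℝ => x + ε • v := by fun_prop
  have h1 : ∀ᶠ ε in 𝓝 (0 : ℝ), x + ε • v ∈ interior (HPoly u h) := by
    apply (hc.tendsto 0).eventually_mem
    apply isOpen_interior.mem_nhds
    simpa using hint
  obtain ⟨ε, hε, hε'⟩ := ((h1.filter_mono (nhdsWithin_le_nhds (s := Ioi 0))).and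
    self_mem_nhdsWithin).exists
  have h3 := hvt _ (interior_subset hε)
  rw [inner_add_right, inner_smul_right, hx.2] at h3
  have h4 : 0 < ε * inner ℝ v v := mul_pos hε' (real_inner_self_pos.2 hv)
  linarith

/-- The number of representing points is attained. -/
theorem minRep_spec (hA2 : St_A2) {d n : ℕ} {u : Fin n → E d} {h : Fin n → ℝ}
    (hx0 : ∃ x, ∀ i, inner ℝ (u i) x < h i) :
    ∃ K : Finset (E d), (K : Set (E d)) ⊆ frontier (HPoly u h) ∧
      (∀ F, IsFacet (HPoly u h) F → ((K : Set (E d)) ∩ F).Nonempty) ∧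
      K.card = minRep (HPoly u h) := by
  classical
  have hfin := (hA2 d n u h hx0).1
  have hne : {k | ∃ K : Finset (E d), (K : Set (E d)) ⊆ frontier (HPoly u h) ∧
      (∀ F, IsFacet (HPoly u h) F → ((K : Set (E d)) ∩ F).Nonempty) ∧ K.card = k}.Nonempty := by
    have hpt : ∀ F : Set (E d), ∃ x : E d, IsFacet (HPoly u h) F → x ∈ F := by
      intro F
      by_cases hF : IsFacet (HPoly u h) F
      · obtain ⟨v, t, hv, hvt, hFe, ⟨x, hx⟩, hdim⟩ := hF
        exact ⟨x, fun _ => hx⟩
      · exact ⟨0, fun h => absurd h hF⟩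
    choose g hg using hpt
    refine ⟨_, hfin.toFinset.image g, ?_, ?_, rfl⟩
    · intro x hx
      rw [Finset.mem_coe, Finset.mem_image] at hx
      obtain ⟨F, hF, rfl⟩ := hx
      have hF' : IsFacet (HPoly u h) F := hfin.mem_toFinset.1 hF
      exact facet_subset_frontier hF' (hg F hF')
    · intro F hF
      exact ⟨g F, Finset.mem_coe.2 (Finset.mem_image.2 ⟨F, hfin.mem_toFinset.2 hF, rfl⟩), hg F hF⟩
  exact Nat.sInf_mem hne

theorem e1_of (hA2 : St_A2) : St_E1 := by
  classical
  rintro d N M hd ⟨u, h, W, f, hbd, ⟨x0, hx0⟩, hsym, hM, hW⟩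
  -- the origin is strictly inside
  have h0 : ∀ i, 0 < h i := by
    intro i
    have hxP : x0 ∈ HPoly u h := fun j => (hx0 j).le
    have h1 := hsym x0 hxP i
    rw [inner_neg_right] at h1
    linarith [hx0 i]
  have h0P : (0 : E d) ∈ HPoly u h := fun i => by rw [inner_zero_right]; exact (h0 i).le
  -- a nonzero point of the body
  have : Nonempty (Fin d) := ⟨⟨0, hd⟩⟩
  obtain ⟨e0, he0⟩ := exists_ne (0 : E d)
  obtain ⟨ε0, hε0, hε0P⟩ := small_step u h 0 e0 (fun i => Or.inl (by
    rw [inner_zero_right]; exact h0 i))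
  have hW0 : ∀ w ∈ W, w ≠ 0 := by
    intro w hw hw0
    obtain ⟨-, -, h1, h2⟩ := hW w hw
    rw [hw0] at h1 h2
    rw [neg_zero] at h1
    have h3 : f 0 = 0 := by
      have : f 0 + f 0 = 0 := by
        nth_rewrite 1 [h1]; exact neg_add_cancel _
      have h4 : (2 : ℝ) • f 0 = 0 := by rw [two_smul]; exact this
      exact (smul_eq_zero.1 h4).resolve_left (by norm_num)
    have h4 := h2 _ hε0P (by
      rw [zero_add]
      exact smul_ne_zero hε0.ne' he0)
    rw [h3, inner_zero_left, inner_zero_left] at h4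
    exact lt_irrefl _ h4
  have hfw : ∀ w ∈ W, 0 < inner ℝ (f w) w := by
    intro w hw
    have h1 := (hW w hw).2.2.2 0 h0P (hW0 w hw).symm
    rwa [inner_zero_right] at h1
  have hf0 : ∀ w ∈ W, f w ≠ 0 := by
    intro w hw h1
    have h2 := hfw w hw
    rw [h1, inner_zero_left] at h2
    exact lt_irrefl _ h2
  have hcomp : IsCompact (HPoly u h) :=
    Metric.isCompact_of_isClosed_isBounded (isClosed_hpoly u h) hbd
  -- the size of the caps
  have hcap : ∀ w ∈ W, ∀ w' ∈ W, w ≠ w' → ∀ᶠ ε in 𝓝[>] (0 : ℝ), ∀ x ∈ HPoly u h,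
      inner ℝ (f w) w - ε ≤ inner ℝ (f w) x → inner ℝ (f w') x < inner ℝ (f w') w' - ε := by
    intro w hw w' hw' hne
    have hcont : Continuous fun x : E d => min (inner ℝ (f w) x - inner ℝ (f w) w)
        (inner ℝ (f w') x - inner ℝ (f w') w') := by fun_prop
    obtain ⟨z, hz, hzmax⟩ := hcomp.exists_isMaxOn ⟨0, h0P⟩ hcont.continuousOn
    have hneg : min (inner ℝ (f w) z - inner ℝ (f w) w)
        (inner ℝ (f w') z - inner ℝ (f w') w') < 0 := by
      by_cases hzw : z = w
      · have h1 := (hW w' hw').2.2.2 z hz (by rw [hzw]; exact hne)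
        exact (min_le_right _ _).trans_lt (by linarith)
      · have h1 := (hW w hw).2.2.2 z hz hzw
        exact (min_le_left _ _).trans_lt (by linarith)
    have h1 : ∀ᶠ ε in 𝓝 (0 : ℝ), ε < - min (inner ℝ (f w) z - inner ℝ (f w) w)
        (inner ℝ (f w') z - inner ℝ (f w') w') :=
      eventually_lt_nhds (by linarith)
    filter_upwards [h1.filter_mono nhdsWithin_le_nhds] with ε hε x hx hxε
    have h2 := hzmax hx
    simp only [mem_ofPred_eq] at h2
    rcases min_choice (inner ℝ (f w) x - inner ℝ (f w) w)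
        (inner ℝ (f w') x - inner ℝ (f w') w') with h3 | h3
    · rw [h3] at h2
      linarith
    · rw [h3] at h2
      linarith
  have hall : ∀ᶠ ε in 𝓝[>] (0 : ℝ), (∀ w ∈ W, ∀ w' ∈ W, w ≠ w' → ∀ x ∈ HPoly u h,
      inner ℝ (f w) w - ε ≤ inner ℝ (f w) x → inner ℝ (f w') x < inner ℝ (f w') w' - ε) ∧
      (∀ w ∈ W, ε < inner ℝ (f w) w) := by
    refine Filter.Eventually.and ?_ ?_
    · rw [Filter.eventually_all_finset]
      intro w hw
      rw [Filter.eventually_all_finset]
      intro w' hw'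
      by_cases hne : w = w'
      · exact Filter.Eventually.of_forall fun _ h => absurd hne h
      · exact (hcap w hw w' hw' hne).mono fun _ h _ => h
    · rw [Filter.eventually_all_finset]
      intro w hw
      have h1 : ∀ᶠ ε in 𝓝 (0 : ℝ), ε < inner ℝ (f w) w := eventually_lt_nhds (hfw w hw)
      exact h1.filter_mono nhdsWithin_le_nhds
  obtain ⟨ε, ⟨hε1, hε2⟩, hε⟩ := (hall.and self_mem_nhdsWithin).exists
  -- enumeration of the points
  obtain ⟨w, hwinj, hwr⟩ : ∃ w : Fin M → E d, Function.Injective w ∧ Set.range w = (W : Set (E d)) := by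
    let e := (Finset.equivFinOfCardEq hM).symm
    refine ⟨fun k => (e k : E d), ?_, ?_⟩
    · intro a b hab
      exact e.injective (Subtype.ext hab)
    · ext x
      constructor
      · rintro ⟨k, rfl⟩
        exact (e k).2
      · intro hx
        exact ⟨e.symm ⟨x, hx⟩, by simp⟩
  have hwW : ∀ k, w k ∈ W := fun k => by
    have : w k ∈ (W : Set (E d)) := hwr ▸ Set.mem_range_self k
    exact this
  obtain ⟨U, hU1, hU2⟩ : ∃ U : Fin (N + M) → E d, (∀ i, U (Fin.castAdd M i) = u i) ∧
      ∀ k, U (Fin.natAdd N k) = f (w k) :=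
    ⟨Fin.append u fun k => f (w k), fun i => Fin.append_left _ _ i,
      fun k => Fin.append_right _ _ k⟩
  obtain ⟨H, hH1, hH2⟩ : ∃ H : Fin (N + M) → ℝ, (∀ i, H (Fin.castAdd M i) = h i) ∧
      ∀ k, H (Fin.natAdd N k) = inner ℝ (f (w k)) (w k) - ε :=
    ⟨Fin.append h fun k => inner ℝ (f (w k)) (w k) - ε, fun i => Fin.append_left _ _ i,
      fun k => Fin.append_right _ _ k⟩
  have hmem : ∀ x, x ∈ HPoly U H ↔ x ∈ HPoly u h ∧
      ∀ k, inner ℝ (f (w k)) x ≤ inner ℝ (f (w k)) (w k) - ε := by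
    intro x
    constructor
    · intro hx
      refine ⟨fun i => ?_, fun k => ?_⟩
      · have := hx (Fin.castAdd M i)
        rwa [hU1, hH1] at this
      · have := hx (Fin.natAdd N k)
        rwa [hU2, hH2] at this
    · rintro ⟨hx1, hx2⟩ j
      refine Fin.addCases (fun i => ?_) (fun k => ?_) j
      · rw [hU1, hH1]; exact hx1 i
      · rw [hU2, hH2]; exact hx2 k
  have hstr : ∀ j, inner ℝ (U j) (0 : E d) < H j := by
    intro j
    refine Fin.addCases (fun i => ?_) (fun k => ?_) j
    · rw [hU1, hH1, inner_zero_right]; exact h0 i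
    · rw [hU2, hH2, inner_zero_right]
      linarith [hε2 (w k) (hwW k)]
  refine ⟨HPoly U H, ⟨⟨hbd.subset fun x hx => ((hmem x).1 hx).1, _, _, _, rfl⟩, ?_, 0, ?_⟩,
    (hA2 d (N + M) U H ⟨0, hstr⟩).2, ?_⟩
  · -- interior
    refine ⟨0, ?_⟩
    rw [mem_interior]
    refine ⟨⋂ j, {x | inner ℝ (U j) x < H j}, ?_, ?_, ?_⟩
    · intro x hx j
      exact (Set.mem_iInter.1 hx j).le
    · exact isOpen_iInter_of_finite fun j => isOpen_lt (by fun_prop) continuous_const
    · exact Set.mem_iInter.2 hstr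
  · -- symmetry
    intro x hx
    rw [smul_zero, zero_sub]
    rw [hmem] at hx ⊢
    refine ⟨hsym x hx.1, fun k => ?_⟩
    obtain ⟨-, hneg, hfneg, -⟩ := hW (w k) (hwW k)
    obtain ⟨k', hk'⟩ : -(w k) ∈ Set.range w := by rw [hwr]; exact hneg
    have h1 := hx.2 k'
    rw [hk', hfneg, inner_neg_left, inner_neg_neg] at h1
    rw [inner_neg_right]
    exact h1
  · -- lower bound for the number of representing points
    obtain ⟨K, -, hK, hKc⟩ := minRep_spec hA2 ⟨0, hstr⟩
    rw [← hKc]
    have hfacet : ∀ k, IsFacet (HPoly U H) (face U H (Fin.natAdd N k)) := by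
      intro k
      have hpos := hfw (w k) (hwW k)
      have hlt := hε2 (w k) (hwW k)
      set lam : ℝ := (inner ℝ (f (w k)) (w k) - ε) / inner ℝ (f (w k)) (w k) with hlam
      have hlam0 : 0 < lam := div_pos (by linarith) hpos
      have hlam1 : lam < 1 := by rw [hlam, div_lt_one hpos]; linarith
      have hzval : inner ℝ (f (w k)) (lam • w k) = inner ℝ (f (w k)) (w k) - ε := by
        rw [inner_smul_right, hlam, div_mul_cancel₀ _ hpos.ne']
      have hzs : ∀ i, inner ℝ (u i) (lam • w k) < h i := by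
        intro i
        rw [inner_smul_right]
        have h1 := mul_le_mul_of_nonneg_left ((hW (w k) (hwW k)).1 i) hlam0.le
        have h2 := mul_lt_mul_of_pos_right hlam1 (h0 i)
        linarith
      refine isFacet_face (z := lam • w k) (by rw [hU2]; exact hf0 _ (hwW k)) ?_ ?_
      · rw [hU2, hH2]; exact hzval
      · intro j
        refine Fin.addCases (fun i => ?_) (fun k' => ?_) j
        · intro _
          rw [hU1, hH1]; exact hzs i
        · intro hne
          rw [hU2, hH2]
          have hkk : w k ≠ w k' := by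
            intro hcon
            exact hne (by rw [hwinj hcon])
          exact hε1 (w k) (hwW k) (w k') (hwW k') hkk _ (fun i => (hzs i).le) hzval.ge
    have hpt : ∀ k, ∃ x ∈ K, x ∈ face U H (Fin.natAdd N k) := fun k => by
      obtain ⟨x, hx1, hx2⟩ := hK _ (hfacet k)
      exact ⟨x, hx1, hx2⟩
    choose g hgK hgF using hpt
    have hginj : Function.Injective g := by
      intro k k' hkk
      by_contra hne
      have h1 := hgF k
      have h2 := hgF k'
      rw [← hkk] at h2
      have h3 : g k ∈ HPoly u h := ((hmem _).1 h1.1).1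
      have h4 := h1.2
      have h5 := h2.2
      rw [hU2, hH2] at h4 h5
      have h6 := hε1 (w k) (hwW k) (w k') (hwW k') (fun h => hne (hwinj h)) _ h3 h4.ge
      linarith
    have h1 : (Finset.univ : Finset (Fin M)).card ≤ K.card :=
      Finset.card_le_card_of_injOn g (fun k _ => hgK k) (hginj.injOn)
    simpa using h1

end Pool.Agent.R126.Fac
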